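import Pool.Agent.L7h86.LP.Stm

set_option autoImplicit false

namespace Pool.Agent.L7h12.LP

open Finset Classical
open Pool.Agent.K7.H44.LP (NoP5 Longest comp NC phi nc Sys)
open Pool.Agent.L7h86.LP

universe u

theorem s_LEM1 : S_LEM1.{u} := by
  intro V G C n n' e e' h5 conn hn hn' hnn he he' hne hn'e hn'e' hne'
  by_contra hee
  obtain ⟨c', hc', hc'n'⟩ := hn'.2
  -- a common neighbour is impossible
  have common : ∀ c ∈ C, G.Adj n c → G.Adj c n' → False := by
    intro c hc hnc hcn'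
    exact h5 e n c n' e' hne.symm hnc hcn' hn'e' (fun h => he.2 c hc h.symm) (fun h => hn'e h.symm)
      hee hnn hne' (he'.2 c hc)
  have key : {w | w ∈ C ∧ (G.Adj n w ∨ ∃ u ∈ C, G.Adj n u ∧ G.Adj u w)} = C := by
    refine conn _ (fun w hw => hw.1) ?_ ?_
    · obtain ⟨c, hc, hac⟩ := hn.2
      exact ⟨c, hc, Or.inl hac.symm⟩
    · rintro w ⟨hw, hw'⟩ v hv hwv
      refine ⟨hv, ?_⟩
      by_cases hav : G.Adj n v
      · exact Or.inl hav
      right
      by_cases haw : G.Adj n w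
      · exact ⟨w, hw, haw, hwv⟩
      rcases hw' with h | ⟨u, hu, hau, huw⟩
      · exact absurd h haw
      by_cases huv : G.Adj u v
      · exact ⟨u, hu, hau, huv⟩
      exact (h5 e n u w v hne.symm hau huw hwv (fun h => he.2 u hu h.symm)
        (fun h => he.2 w hw h.symm) (fun h => he.2 v hv h.symm) haw hav huv).elim
  have h1 : c' ∈ {w | w ∈ C ∧ (G.Adj n w ∨ ∃ u ∈ C, G.Adj n u ∧ G.Adj u w)} := by
    rw [key]; exact hc'
  rcases h1.2 with h | ⟨u, hu, hnu, huc'⟩
  · exact common c' hc' h hc'n'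
  · by_cases hun' : G.Adj u n'
    · exact common u hu hnu hun'
    · by_cases hnc' : G.Adj n c'
      · exact common c' hc' hnc' hc'n'
      · exact h5 e n u c' n' hne.symm hnu huc' hc'n' (fun h => he.2 u hu h.symm)
          (fun h => he.2 c' hc' h.symm) (fun h => hn'e h.symm) hnc' hnn hun'

theorem s_CL : S_CL.{u} := by
  intro V _ G C C' W a s D Γ Z B4 t hΓ hZ hB4 tinj hZt htt
  obtain ⟨c₀, hc₀⟩ := D.ne
  -- a successor is not in `C`
  have sC : ∀ w ∈ W, s w ∉ C := fun w hw h => D.sC' w hw a D.aC' (D.full _ h)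
  set 𝒲 : Finset V := univ.filter (fun w => w ∈ W ∧ (Bb G C W s (s w) ∨ s w ∈ Γ)) with h𝒲
  have hW : 𝒲.card ≤ (univ.filter fun b => Bb G C W s b).card + Γ.card := by
    have h1 : 𝒲.card = (𝒲.image s).card := by
      rw [card_image_of_injOn]
      intro x hx y hy hxy
      have hx' := (mem_filter.1 (mem_coe.1 hx)).2.1
      have hy' := (mem_filter.1 (mem_coe.1 hy)).2.1
      exact D.sinj hx' hy' hxy
    rw [h1]
    refine (card_le_card ?_).trans (card_union_le _ _)
    intro y hy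
    obtain ⟨x, hx, rfl⟩ := mem_image.1 hy
    rcases (mem_filter.1 hx).2.2 with h | h
    · exact mem_union_left _ (mem_filter.2 ⟨mem_univ _, h⟩)
    · exact mem_union_right _ h
  have fin : ∀ X : Finset V, (∀ x ∈ X, Hh G C x ∧ x ∈ W ∧ (Bb G C W s (s x) ∨ s x ∈ Γ)) →
      (∀ x ∈ X, x ∉ Z) → B4.card ≤ X.card →
      (univ.filter fun c => c ∈ C ∧ c ∈ W).card + Z.card + B4.card ≤
        (univ.filter fun b => Bb G C W s b).card + Γ.card := by
    intro X hX hXZ hcard
    have d1 : Disjoint (univ.filter fun c => c ∈ C ∧ c ∈ W) Z := by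
      rw [disjoint_left]
      intro x hx hxZ
      exact (hZ x hxZ).1.1 (mem_filter.1 hx).2.1
    have d2 : Disjoint ((univ.filter fun c => c ∈ C ∧ c ∈ W) ∪ Z) X := by
      rw [disjoint_left]
      intro x hx hxX
      rcases mem_union.1 hx with h | h
      · exact (hX x hxX).1.1 (mem_filter.1 h).2.1
      · exact hXZ x hxX h
    have h2 : (univ.filter fun c => c ∈ C ∧ c ∈ W) ∪ Z ∪ X ⊆ 𝒲 := by
      intro x hx
      rcases mem_union.1 hx with h | h
      · rcases mem_union.1 h with h | h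
        · obtain ⟨hxC, hxW⟩ := (mem_filter.1 h).2
          refine mem_filter.2 ⟨mem_univ _, hxW, Or.inl ⟨⟨sC x hxW, x, hxC, D.sadj x hxW⟩, x, hxW, rfl⟩⟩
        · obtain ⟨g1, g2, g3, g4⟩ := hZ x h
          exact mem_filter.2 ⟨mem_univ _, g3, g4⟩
      · exact mem_filter.2 ⟨mem_univ _, (hX x h).2.1, (hX x h).2.2⟩
    have h3 := card_le_card h2
    rw [card_union_of_disjoint d2, card_union_of_disjoint d1] at h3
    omega
  by_cases hB : B4 = ∅
  · exact fin ∅ (by simp) (by simp) (by simp [hB])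
  have hBne : B4.Nonempty := nonempty_iff_ne_empty.2 hB
  obtain ⟨bt, hbt, hmax⟩ := B4.exists_max_image
    (fun b => ((B4.image t).filter fun x => G.Adj b x).card) hBne
  have abt : ∀ b ∈ B4, ¬ G.Adj a b := by
    intro b hb h
    obtain ⟨w, hw, hwb⟩ := (hB4 b hb).1.2
    exact D.sC' w hw a D.aC' (hwb ▸ h)
  have bnon : ∀ b ∈ B4, ∀ b' ∈ B4, ¬ G.Adj b b' := by
    intro b hb b' hb' h
    obtain ⟨w, hw, hwb⟩ := (hB4 b hb).1.2
    obtain ⟨w', hw', hwb'⟩ := (hB4 b' hb').1.2
    exact D.snon w hw w' hw' (by rw [hwb, hwb']; exact h)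
  have snb : ∀ b ∈ B4, ∀ w ∈ W, ¬ G.Adj (s w) b := by
    intro b hb w hw h
    obtain ⟨w', hw', hwb'⟩ := (hB4 b hb).1.2
    exact D.snon w hw w' hw' (by rw [hwb']; exact h)
  have hbt_all : ∀ b ∈ B4, G.Adj bt (t b) := by
    intro b hb
    by_contra hcon
    obtain ⟨e', he', hbe', hnbe'⟩ : ∃ e' ∈ B4.image t, G.Adj bt e' ∧ ¬ G.Adj b e' := by
      by_contra hno
      push Not at hno
      have hss : ((B4.image t).filter fun x => G.Adj bt x) ⊂
          ((B4.image t).filter fun x => G.Adj b x) := by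
        rw [ssubset_iff_of_subset]
        · refine ⟨t b, mem_filter.2 ⟨mem_image_of_mem t hb, (hB4 b hb).2.2.2⟩, ?_⟩
          intro h
          exact hcon (mem_filter.1 h).2
        · intro x hx
          exact mem_filter.2 ⟨(mem_filter.1 hx).1, hno x (mem_filter.1 hx).1 (mem_filter.1 hx).2⟩
      have h4 := card_lt_card hss
      have h5 := hmax b hb
      omega
    obtain ⟨b', hb', rfl⟩ := mem_image.1 he'
    exact htt b hb b' hb' (s_LEM1 V G C b bt (t b) (t b') D.h5 D.conn (hB4 b hb).1.1 (hB4 bt hbt).1.1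
      (bnon b hb bt hbt) (hB4 b hb).2.1 (hB4 b' hb').2.1 (hB4 b hb).2.2.2 hcon hbe' hnbe')
  have hNa : Nn G C a := ⟨D.aC, c₀, hc₀, (D.full c₀ hc₀).symm⟩
  obtain ⟨c, hcC, hcbt⟩ := (hB4 bt hbt).1.1.2
  set Xa : Finset V := univ.filter (fun x => Hh G C x ∧ G.Adj a x ∧ ¬ G.Adj bt x) with hXa
  set Xb : Finset V := univ.filter (fun x => Hh G C x ∧ G.Adj bt x ∧ ¬ G.Adj a x) with hXb
  have hab : ∀ x ∈ Xa, ∀ z ∈ Xb, G.Adj x z := by
    intro x hx z hz
    obtain ⟨x1, x2, x3⟩ := (mem_filter.1 hx).2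
    obtain ⟨z1, z2, z3⟩ := (mem_filter.1 hz).2
    exact s_LEM1 V G C a bt x z D.h5 D.conn hNa (hB4 bt hbt).1.1 (abt bt hbt) x1 z1 x2 x3 z2 z3
  have htXb : ∀ b ∈ B4, t b ∈ Xb := fun b hb =>
    mem_filter.2 ⟨mem_univ _, (hB4 b hb).2.1, hbt_all b hb, (hB4 b hb).2.2.1⟩
  by_cases hXW : ∀ x ∈ Xa, x ∈ W
  · refine fin Xa ?_ ?_ ?_
    · intro x hx
      obtain ⟨x1, x2, x3⟩ := (mem_filter.1 hx).2
      have hxW := hXW x hx
      refine ⟨x1, hxW, Or.inl ⟨?_, x, hxW, rfl⟩⟩
      by_contra hN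
      have hH : ∀ c' ∈ C, ¬ G.Adj c' (s x) := by
        intro c' hc' h
        exact hN ⟨sC x hxW, c', hc', h⟩
      exact D.h5 (s x) x a c bt (D.sadj x hxW).symm x2.symm (D.full c hcC) hcbt
        (fun h => D.sC' x hxW a D.aC' h.symm) (fun h => hH c hcC h.symm) (snb bt hbt x hxW)
        (fun h => x1.2 c hcC h.symm) (fun h => x3 h.symm) (abt bt hbt)
    · intro x hx hxZ
      exact hZt x hxZ bt hbt (hab x hx (t bt) (htXb bt hbt))
    · have h6 : hc G C bt ≤ hc G C a :=
        D.maxh bt (hB4 bt hbt).1.1 (abt bt hbt) ⟨t bt, (hB4 bt hbt).2.1, hbt_all bt hbt,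
          (hB4 bt hbt).2.2.1⟩
      have h7 : B4.card ≤ Xb.card := by
        rw [← card_image_of_injOn tinj]
        refine card_le_card ?_
        intro y hy
        obtain ⟨b, hb, rfl⟩ := mem_image.1 hy
        exact htXb b hb
      set Y : Finset V := univ.filter (fun x => Hh G C x ∧ G.Adj a x ∧ G.Adj bt x) with hY
      have h8 : hc G C bt = Xb.card + Y.card := by
        unfold hc
        rw [← card_union_of_disjoint]
        · congr 1
          ext x
          simp only [hXb, hY, mem_union, mem_filter, mem_univ, true_and]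
          tauto
        · rw [disjoint_left]
          intro x hx hx'
          exact (mem_filter.1 hx).2.2.2 (mem_filter.1 hx').2.2.1
      have h9 : hc G C a = Xa.card + Y.card := by
        unfold hc
        rw [← card_union_of_disjoint]
        · congr 1
          ext x
          simp only [hXa, hY, mem_union, mem_filter, mem_univ, true_and]
          tauto
        · rw [disjoint_left]
          intro x hx hx'
          exact (mem_filter.1 hx).2.2.2 (mem_filter.1 hx').2.2.2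
      omega
  · push Not at hXW
    obtain ⟨x, hx, hxW⟩ := hXW
    obtain ⟨x1, x2, x3⟩ := (mem_filter.1 hx).2
    have hxC' : x ∈ C' := (D.nb a D.aC' x x2).resolve_right hxW
    refine fin (B4.image t) ?_ ?_ (by rw [card_image_of_injOn tinj])
    · intro z hz
      obtain ⟨b, hb, rfl⟩ := mem_image.1 hz
      obtain ⟨z1, z2, z3⟩ := (mem_filter.1 (htXb b hb)).2
      have hxz := hab x hx (t b) (htXb b hb)
      have hzW : t b ∈ W := by
        refine (D.nb x hxC' (t b) hxz).resolve_left ?_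
        intro hzC'
        obtain ⟨w, hw, hwb⟩ := (hB4 b hb).1.2
        exact D.sC' w hw (t b) hzC' (by rw [hwb]; exact (hB4 b hb).2.2.2.symm)
      refine ⟨z1, hzW, Or.inl ⟨?_, t b, hzW, rfl⟩⟩
      by_contra hN
      have hH : ∀ c' ∈ C, ¬ G.Adj c' (s (t b)) := by
        intro c' hc' h
        exact hN ⟨sC _ hzW, c', hc', h⟩
      exact D.h5 (s (t b)) (t b) bt c a (D.sadj _ hzW).symm z2.symm hcbt.symm (D.full c hcC).symm
        (snb bt hbt _ hzW) (fun h => hH c hcC h.symm) (fun h => D.sC' _ hzW a D.aC' h.symm)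
        (fun h => z1.2 c hcC h.symm) (fun h => z3 h.symm) (fun h => abt bt hbt h.symm)
    · intro z hz hzZ
      obtain ⟨b, hb, rfl⟩ := mem_image.1 hz
      exact (hB4 b hb).2.2.1 (hZ _ hzZ).2.1

end Pool.Agent.L7h12.LP
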